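import Mathlib
import Pool.Agent.J4H12.TB.Stm

/-! Project TB (helper12), parts EXU and DUR (helper19). -/

set_option autoImplicit false

open Filter Topology Set

noncomputable section

namespace Pool.Agent.J4H19.TB

open Pool.Agent.J4H12.TB

/-! ### derivatives of dot and cross products -/

lemma hasDerivAt_re {f : ℝ → ℂ} {f' : ℂ} {t : ℝ} (h : HasDerivAt f f' t) :
    HasDerivAt (fun t => (f t).re) f'.re t :=
  Complex.reCLM.hasFDerivAt.comp_hasDerivAt t h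

lemma hasDerivAt_im {f : ℝ → ℂ} {f' : ℂ} {t : ℝ} (h : HasDerivAt f f' t) :
    HasDerivAt (fun t => (f t).im) f'.im t :=
  Complex.imCLM.hasFDerivAt.comp_hasDerivAt t h

lemma hasDerivAt_dt {f g : ℝ → ℂ} {f' g' : ℂ} {t : ℝ} (hf : HasDerivAt f f' t)
    (hg : HasDerivAt g g' t) :
    HasDerivAt (fun t => dt (f t) (g t)) (dt f' (g t) + dt (f t) g') t := by
  have h := ((hasDerivAt_re hf).mul (hasDerivAt_re hg)).add
    ((hasDerivAt_im hf).mul (hasDerivAt_im hg))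
  refine h.congr_deriv ?_
  unfold dt; ring

lemma hasDerivAt_cr {f g : ℝ → ℂ} {f' g' : ℂ} {t : ℝ} (hf : HasDerivAt f f' t)
    (hg : HasDerivAt g g' t) :
    HasDerivAt (fun t => cr (f t) (g t)) (cr f' (g t) + cr (f t) g') t := by
  have h := ((hasDerivAt_re hf).mul (hasDerivAt_im hg)).sub
    ((hasDerivAt_im hf).mul (hasDerivAt_re hg))
  refine h.congr_deriv ?_
  unfold cr; ring

lemma norm_sq (z : ℂ) : ‖z‖ ^ 2 = z.re ^ 2 + z.im ^ 2 := by
  rw [Complex.sq_norm, Complex.normSq_apply]; ring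

lemma dt_self (z : ℂ) : dt z z = ‖z‖ ^ 2 := by rw [norm_sq]; unfold dt; ring

lemma dt_sq_add_cr_sq (z w : ℂ) : dt z w ^ 2 + cr z w ^ 2 = ‖z‖ ^ 2 * ‖w‖ ^ 2 := by
  rw [norm_sq, norm_sq]; unfold dt cr; ring

lemma abs_dt_le (z w : ℂ) : |dt z w| ≤ ‖z‖ * ‖w‖ := by
  apply abs_le_of_sq_le_sq _ (by positivity)
  have := dt_sq_add_cr_sq z w
  nlinarith [sq_nonneg (cr z w)]

lemma abs_cr_le (z w : ℂ) : |cr z w| ≤ ‖z‖ * ‖w‖ := by
  apply abs_le_of_sq_le_sq _ (by positivity)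
  have := dt_sq_add_cr_sq z w
  nlinarith [sq_nonneg (dt z w)]

lemma hasDerivAt_norm {r : ℝ → ℂ} {w : ℂ} {t : ℝ} (h : HasDerivAt r w t) (h0 : r t ≠ 0) :
    HasDerivAt (fun t => ‖r t‖) (dt (r t) w / ‖r t‖) t := by
  have h1 := hasDerivAt_dt h h
  have h2 : (fun t => dt (r t) (r t)) = fun t => ‖r t‖ ^ 2 := by
    funext t; exact dt_self _
  rw [h2] at h1
  have h3 : ‖r t‖ ^ 2 ≠ 0 := by positivity
  have h4 := h1.sqrt h3
  have h5 : (fun t => √(‖r t‖ ^ 2)) = fun t => ‖r t‖ := by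
    funext t; exact Real.sqrt_sq (norm_nonneg _)
  rw [h5, Real.sqrt_sq (norm_nonneg _)] at h4
  refine h4.congr_deriv ?_
  have h6 : dt w (r t) = dt (r t) w := by unfold dt; ring
  rw [h6]
  field_simp
  ring

/-- the direction of a moving vector -/
lemma hasDerivAt_dir {r : ℝ → ℂ} {w : ℂ} {t : ℝ} (h : HasDerivAt r w t) (h0 : r t ≠ 0) :
    ∃ d, HasDerivAt (fun t => r t / ‖r t‖) d t ∧ ‖d‖ = |cr (r t) w| / ‖r t‖ ^ 2 := by
  have hn := (hasDerivAt_norm h h0).ofReal_comp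
  have hr0 : ((‖r t‖ : ℝ) : ℂ) ≠ 0 := by
    rw [Complex.ofReal_ne_zero]; exact norm_ne_zero_iff.2 h0
  have h1 := h.div hn hr0
  refine ⟨_, h1, ?_⟩
  have hR : 0 < ‖r t‖ := norm_pos_iff.2 h0
  have h2 : ‖(w * ((‖r t‖ : ℝ) : ℂ) - r t * ((dt (r t) w / ‖r t‖ : ℝ) : ℂ)) / ((‖r t‖ : ℝ) : ℂ) ^ 2‖ ^ 2
      = (|cr (r t) w| / ‖r t‖ ^ 2) ^ 2 := by
    rw [norm_div, div_pow, div_pow, norm_pow, Complex.norm_real, norm_norm, sq_abs]
    congr 1
    rw [norm_sq]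
    simp only [Complex.sub_re, Complex.sub_im, Complex.mul_re, Complex.mul_im, Complex.ofReal_re,
      Complex.ofReal_im]
    have h3 : ‖r t‖ ^ 2 = (r t).re ^ 2 + (r t).im ^ 2 := norm_sq _
    have h4 : (w.re * ‖r t‖ - w.im * 0 - ((r t).re * (dt (r t) w / ‖r t‖) - (r t).im * 0)) =
        (w.re * ‖r t‖ ^ 2 - (r t).re * dt (r t) w) / ‖r t‖ := by field_simp; ring
    have h5 : (w.re * 0 + w.im * ‖r t‖ - ((r t).re * 0 + (r t).im * (dt (r t) w / ‖r t‖))) =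
        (w.im * ‖r t‖ ^ 2 - (r t).im * dt (r t) w) / ‖r t‖ := by field_simp; ring
    rw [h4, h5, div_pow, div_pow, ← add_div, div_eq_iff (by positivity), h3]
    unfold dt cr
    ring
  exact (sq_eq_sq₀ (norm_nonneg _) (by positivity)).1 h2

/-! ### pointwise facts -/

/-- the derivative of `dt r w` -/
def zd (r w F : ℝ → ℂ) (M : ℝ) (t : ℝ) : ℝ := ‖w t‖ ^ 2 - M / ‖r t‖ + dt (r t) (F t)

lemma hasDerivAt_z {μ ν M C E : ℝ} {r w X Y F G : ℝ → ℂ} {P : ℝ → ℝ}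
    (h : Two μ ν M C E r w X Y F G P) (t : ℝ) :
    HasDerivAt (fun t => dt (r t) (w t)) (zd r w F M t) t := by
  refine (hasDerivAt_dt (h.dr t) (h.dw t)).congr_deriv ?_
  have hr : 0 < ‖r t‖ := norm_pos_iff.2 (h.r0 t)
  have h1 : dt (r t) (-((M / ‖r t‖ ^ 3 : ℝ) : ℂ) * r t + F t)
      = -(M / ‖r t‖ ^ 3) * dt (r t) (r t) + dt (r t) (F t) := by
    rw [← Complex.ofReal_neg]
    unfold dt
    simp only [Complex.add_re, Complex.add_im, Complex.re_ofReal_mul, Complex.im_ofReal_mul]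
    ring
  rw [dt_self, h1, dt_self]
  unfold zd
  field_simp
  ring

lemma hasDerivAt_l {μ ν M C E : ℝ} {r w X Y F G : ℝ → ℂ} {P : ℝ → ℝ}
    (h : Two μ ν M C E r w X Y F G P) (t : ℝ) :
    HasDerivAt (fun t => cr (r t) (w t)) (cr (r t) (F t)) t := by
  refine (hasDerivAt_cr (h.dr t) (h.dw t)).congr_deriv ?_
  rw [← Complex.ofReal_neg]
  unfold cr
  simp only [Complex.add_re, Complex.add_im, Complex.re_ofReal_mul, Complex.im_ofReal_mul]
  ring

lemma pointwise {μ ν M C L E κ : ℝ} {r w X Y F G : ℝ → ℂ} {P : ℝ → ℝ}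
    (h : Two μ ν M C E r w X Y F G P) (hL : 0 < L) (hκ0 : 0 < κ) (hκ : κ ≤ 1 / 2)
    (hκ2 : 8 * (L + C) * κ ≤ M) {x : ℝ} (h1 : ‖r x‖ ≤ κ * ‖X x‖)
    (h2 : -L ≤ eps M r w x * ‖X x‖) :
    M / ‖r x‖ ≤ ‖w x‖ ^ 2 ∧ ‖F x‖ ≤ C * ‖r x‖ / ‖X x‖ ^ 3 ∧
    ‖w x‖ ^ 2 / 4 ≤ zd r w F M x ∧ M / (4 * ‖r x‖) ≤ zd r w F M x := by
  have hr : 0 < ‖r x‖ := norm_pos_iff.2 (h.r0 x)
  have hX : 0 < ‖X x‖ := by
    by_contra hc
    have : ‖X x‖ = 0 := le_antisymm (not_lt.1 hc) (norm_nonneg _)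
    rw [this] at h1; linarith
  have hM := h.M0
  have hC := h.C0
  have hfar : 2 * ‖r x‖ ≤ ‖X x‖ := by nlinarith
  obtain ⟨-, hF, -⟩ := h.far x hfar
  -- `ε ≥ - (M / 8) / ‖r‖`
  have he : -(M / 8) / ‖r x‖ ≤ eps M r w x := by
    rw [div_le_iff₀ hr]
    by_cases hc : 0 ≤ eps M r w x
    · have : 0 ≤ eps M r w x * ‖r x‖ := by positivity
      linarith
    · push Not at hc
      have h3 : eps M r w x * (κ * ‖X x‖) ≤ eps M r w x * ‖r x‖ :=
        mul_le_mul_of_nonpos_left h1 hc.le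
      nlinarith
  have hdF : |dt (r x) (F x)| ≤ (M / 32) / ‖r x‖ := by
    refine (abs_dt_le _ _).trans ?_
    refine (mul_le_mul_of_nonneg_left hF hr.le).trans ?_
    rw [le_div_iff₀ hr]
    have h3 : ‖r x‖ * (C * ‖r x‖ / ‖X x‖ ^ 3) * ‖r x‖ = C * (‖r x‖ / ‖X x‖) ^ 3 := by
      field_simp
    rw [h3]
    have h4 : ‖r x‖ / ‖X x‖ ≤ κ := by rw [div_le_iff₀ hX]; exact h1
    have h5 : (‖r x‖ / ‖X x‖) ^ 3 ≤ κ ^ 3 := by gcongr
    have h60 : κ ^ 2 ≤ 1 / 4 := by nlinarith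
    have h6 : κ ^ 3 ≤ κ / 4 := by nlinarith
    have h7 : C * κ ≤ M / 8 := by nlinarith [mul_pos hL hκ0]
    nlinarith
  have hw : ‖w x‖ ^ 2 = 2 * eps M r w x + 2 * (M / ‖r x‖) := by unfold eps; ring
  have hMr : 0 < M / ‖r x‖ := by positivity
  have e1 : -(M / 8) / ‖r x‖ = -(1 / 8) * (M / ‖r x‖) := by ring
  have e2 : (M / 32) / ‖r x‖ = (1 / 32) * (M / ‖r x‖) := by ring
  rw [e1] at he
  rw [e2] at hdF
  have hd := (abs_le.1 hdF).1
  have e3 : M / (4 * ‖r x‖) = (1 / 4) * (M / ‖r x‖) := by field_simp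
  refine ⟨by linarith, hF, ?_, ?_⟩
  · unfold zd; linarith
  · unfold zd; rw [e3]; linarith

/-- (EXU) variation of the direction `r/|r|` -/
theorem t_EXU : S_EXU := by
  intro μ ν M C L hμ hν hM hC hL
  set κ : ℝ := min (1 / 2) (M / (8 * (L + C))) with hκdef
  have hLC : 0 < 8 * (L + C) := by positivity
  have hκ0 : 0 < κ := lt_min (by norm_num) (by positivity)
  have hκ1 : κ ≤ 1 / 2 := min_le_left _ _
  have hκ2 : 8 * (L + C) * κ ≤ M := by
    have : κ ≤ M / (8 * (L + C)) := min_le_right _ _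
    rw [le_div_iff₀ hLC] at this
    linarith
  set c0 : ℝ := C / √M with hc0
  have hsM : 0 < √M := Real.sqrt_pos.2 hM
  have hc0p : 0 < c0 := by positivity
  refine ⟨κ, 8 * Real.pi + 8 * c0, hκ0, by positivity, ?_⟩
  intro E r w X Y F G P h a b hab hcl S S' hS
  -- minimum of `‖r‖`
  have hrc : Continuous fun t => ‖r t‖ :=
    continuous_norm.comp (continuous_iff_continuousAt.2 fun t => (h.dr t).continuousAt)
  obtain ⟨x₀, hx₀, hmin⟩ := isCompact_Icc.exists_isMinOn (nonempty_Icc.2 hab) hrc.continuousOn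
  have hδ : 0 < ‖r x₀‖ := norm_pos_iff.2 (h.r0 x₀)
  have hδ' : ∀ x ∈ Icc a b, ‖r x₀‖ ≤ ‖r x‖ := fun x hx => hmin hx
  set ι : ℝ := M * ‖r x₀‖ with hι
  have hιp : 0 < ι := by positivity
  -- the auxiliary function
  set z : ℝ → ℝ := fun t => dt (r t) (w t) with hz
  set ℓ : ℝ → ℝ := fun t => cr (r t) (w t) with hℓ
  set p : ℝ → ℝ := fun t => √(ℓ t ^ 2 + ι) with hp
  set Φ : ℝ → ℝ := fun t => Real.arctan (z t / p t) with hΦ
  have hpp : ∀ t, 0 < p t := fun t => Real.sqrt_pos.2 (by positivity)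
  have hp2 : ∀ t, p t ^ 2 = ℓ t ^ 2 + ι := fun t => Real.sq_sqrt (by positivity)
  have hΦd : ∀ x ∈ Icc a b, ∃ d, HasDerivAt Φ d x ∧
      |ℓ x| / (8 * ‖r x‖ ^ 2) - c0 * (‖r x‖ * √‖r x‖ / ‖X x‖ ^ 3) ≤ d := by
    intro x hx
    obtain ⟨hA, hB, hD, -⟩ := pointwise h hL hκ0 hκ1 hκ2 (hcl x hx).1 (hcl x hx).2
    have hr : 0 < ‖r x‖ := norm_pos_iff.2 (h.r0 x)
    have hX : 0 < ‖X x‖ := by
      by_contra hc
      have h0 : ‖X x‖ = 0 := le_antisymm (not_lt.1 hc) (norm_nonneg _)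
      have := (hcl x hx).1
      rw [h0] at this; linarith
    have hzd := hasDerivAt_z h x
    have hld := hasDerivAt_l h x
    have hpd : HasDerivAt p (ℓ x * cr (r x) (F x) / p x) x := by
      have h1 : HasDerivAt (fun t => ℓ t ^ 2 + ι) (2 * ℓ x * cr (r x) (F x)) x := by
        have := (hld.pow 2).add_const ι
        refine this.congr_deriv ?_
        simp [hℓ]
      have h2 := h1.sqrt (by positivity : ℓ x ^ 2 + ι ≠ 0)
      refine h2.congr_deriv ?_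
      have : √(ℓ x ^ 2 + ι) = p x := rfl
      rw [this]
      have := hpp x
      field_simp
    have hq := hzd.div hpd (hpp x).ne'
    have hat := hq.arctan
    refine ⟨_, hat, ?_⟩
    -- compute
    have hp0 := hpp x
    have hN : p x ^ 2 + z x ^ 2 = ‖r x‖ ^ 2 * ‖w x‖ ^ 2 + ι := by
      rw [hp2, ← dt_sq_add_cr_sq]; ring
    have hιle : ι ≤ ‖r x‖ ^ 2 * ‖w x‖ ^ 2 := by
      have h1 : M * ‖r x₀‖ ≤ M * ‖r x‖ := mul_le_mul_of_nonneg_left (hδ' x hx) hM.le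
      have h2 : M * ‖r x‖ = ‖r x‖ ^ 2 * (M / ‖r x‖) := by field_simp
      have h3 : ‖r x‖ ^ 2 * (M / ‖r x‖) ≤ ‖r x‖ ^ 2 * ‖w x‖ ^ 2 := by gcongr
      linarith
    set N : ℝ := p x ^ 2 + z x ^ 2 with hNdef
    have hNpos : 0 < N := by positivity
    have hval : 1 / (1 + (z x / p x) ^ 2) *
        ((zd r w F M x * p x - z x * (ℓ x * cr (r x) (F x) / p x)) / p x ^ 2)
        = zd r w F M x * p x / N - z x * (ℓ x * cr (r x) (F x) / p x) / N := by
      rw [hNdef]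
      field_simp
    have hfin : |ℓ x| / (8 * ‖r x‖ ^ 2) - c0 * (‖r x‖ * √‖r x‖ / ‖X x‖ ^ 3) ≤
        zd r w F M x * p x / N - z x * (ℓ x * cr (r x) (F x) / p x) / N := by
      have hlp : |ℓ x| ≤ p x := by
        apply Real.le_sqrt_of_sq_le
        rw [sq_abs]; linarith
      have hw0 : 0 < ‖w x‖ ^ 2 := lt_of_lt_of_le (by positivity) hA
      have hw : 0 < ‖w x‖ := by
        rcases (norm_nonneg (w x)).eq_or_lt with h0 | h0
        · rw [← h0] at hw0; norm_num at hw0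
        · exact h0
      have hN2 : N ≤ 2 * (‖r x‖ ^ 2 * ‖w x‖ ^ 2) := by rw [hN]; linarith
      have hN1 : ‖r x‖ ^ 2 * ‖w x‖ ^ 2 ≤ N := by rw [hN]; linarith
      have t1 : |ℓ x| / (8 * ‖r x‖ ^ 2) ≤ zd r w F M x * p x / N := by
        rw [div_le_div_iff₀ (by positivity) hNpos]
        have h1 : ‖w x‖ ^ 2 / 4 * |ℓ x| ≤ zd r w F M x * p x :=
          mul_le_mul hD hlp (abs_nonneg _) (le_trans (by positivity) hD)
        calc |ℓ x| * N ≤ |ℓ x| * (2 * (‖r x‖ ^ 2 * ‖w x‖ ^ 2)) :=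
              mul_le_mul_of_nonneg_left hN2 (abs_nonneg _)
          _ = (‖w x‖ ^ 2 / 4 * |ℓ x|) * (8 * ‖r x‖ ^ 2) := by ring
          _ ≤ _ := mul_le_mul_of_nonneg_right h1 (by positivity)
      have t2 : z x * (ℓ x * cr (r x) (F x) / p x) / N ≤ c0 * (‖r x‖ * √‖r x‖ / ‖X x‖ ^ 3) := by
        refine (le_abs_self _).trans ?_
        rw [abs_div, abs_mul, abs_div, abs_mul, abs_of_pos hNpos, abs_of_pos hp0]
        have h1 : |ℓ x| * |cr (r x) (F x)| / p x ≤ |cr (r x) (F x)| := by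
          rw [div_le_iff₀ hp0]
          nlinarith [abs_nonneg (cr (r x) (F x))]
        have h2 : |cr (r x) (F x)| ≤ ‖r x‖ * (C * ‖r x‖ / ‖X x‖ ^ 3) :=
          (abs_cr_le _ _).trans (mul_le_mul_of_nonneg_left hB hr.le)
        have h3 : |z x| ≤ √N := by
          apply Real.le_sqrt_of_sq_le
          rw [sq_abs, hNdef]
          nlinarith [sq_nonneg (p x)]
        have h4 : |z x| * (|ℓ x| * |cr (r x) (F x)| / p x) / N ≤
            √N * (‖r x‖ * (C * ‖r x‖ / ‖X x‖ ^ 3)) / N := by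
          gcongr
          exact h1.trans h2
        refine h4.trans ?_
        have h5 : √(M * ‖r x‖) ≤ √N := by
          apply Real.sqrt_le_sqrt
          have h2 : M * ‖r x‖ = ‖r x‖ ^ 2 * (M / ‖r x‖) := by field_simp
          have h3 : ‖r x‖ ^ 2 * (M / ‖r x‖) ≤ ‖r x‖ ^ 2 * ‖w x‖ ^ 2 := by gcongr
          linarith
        rw [Real.sqrt_mul hM.le] at h5
        have hsN : 0 < √N := Real.sqrt_pos.2 hNpos
        have hsr : 0 < √‖r x‖ := Real.sqrt_pos.2 hr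
        have h6 : √N * (‖r x‖ * (C * ‖r x‖ / ‖X x‖ ^ 3)) / N
            = C * (‖r x‖ * ‖r x‖ / ‖X x‖ ^ 3) / √N := by
          have : N = √N * √N := (Real.mul_self_sqrt hNpos.le).symm
          rw [div_eq_div_iff hNpos.ne' hsN.ne']
          nth_rewrite 3 [this]
          ring
        rw [h6, hc0, div_le_iff₀ hsN]
        have h7 : C / √M * (‖r x‖ * √‖r x‖ / ‖X x‖ ^ 3) * (√M * √‖r x‖)
            = C * (‖r x‖ * (√‖r x‖ * √‖r x‖) / ‖X x‖ ^ 3) := by
          field_simp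
        rw [Real.mul_self_sqrt hr.le] at h7
        rw [← h7]
        gcongr
      linarith
    rw [← hval] at hfin
    exact hfin
  -- the clock
  set Ψ : ℝ → ℝ := fun t => 8 * Φ t + 8 * c0 * S t with hΨ
  have hΨd : ∀ x ∈ Icc a b, ∃ d, HasDerivAt Ψ d x ∧ |ℓ x| / ‖r x‖ ^ 2 ≤ d := by
    intro x hx
    obtain ⟨d, hd, hd'⟩ := hΦd x hx
    obtain ⟨hs, hs'⟩ := hS x hx
    refine ⟨8 * d + 8 * c0 * S' x, (hd.const_mul 8).add (hs.const_mul (8 * c0)), ?_⟩
    have h1 : 8 * c0 * (‖r x‖ * √‖r x‖ / ‖X x‖ ^ 3) ≤ 8 * c0 * S' x :=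
      mul_le_mul_of_nonneg_left hs' (by positivity)
    have h2 : |ℓ x| / (8 * ‖r x‖ ^ 2) = |ℓ x| / ‖r x‖ ^ 2 / 8 := by
      rw [mul_comm, div_mul_eq_div_div]
    rw [h2] at hd'
    linarith
  refine ⟨Ψ, ?_, ?_⟩
  · have hSab : S a ≤ S b := by
      have hcont : ContinuousOn S (Icc a b) := fun x hx => (hS x hx).1.continuousAt.continuousWithinAt
      have := monotoneOn_of_deriv_nonneg (convex_Icc a b) hcont
        (fun x hx => (hS x (interior_subset hx)).1.differentiableAt.differentiableWithinAt)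
        (fun x hx => by
          rw [(hS x (interior_subset hx)).1.deriv]
          exact le_trans (by positivity) (hS x (interior_subset hx)).2)
      exact this (left_mem_Icc.2 hab) (right_mem_Icc.2 hab) hab
    have h1 : Φ b < Real.pi / 2 := Real.arctan_lt_pi_div_two _
    have h2 : -(Real.pi / 2) < Φ a := Real.neg_pi_div_two_lt_arctan _
    have hpi := Real.pi_pos
    simp only [hΨ]
    nlinarith [mul_nonneg hpi.le (sub_nonneg.2 hSab)]
  · intro x y hax hxy hyb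
    have hsub : Icc x y ⊆ Icc a b := Icc_subset_Icc hax hyb
    choose! d hd hd' using hΨd
    have hu : ∀ t, ∃ d, HasDerivAt (fun t => r t / ‖r t‖) d t ∧ ‖d‖ = |cr (r t) (w t)| / ‖r t‖ ^ 2 :=
      fun t => hasDerivAt_dir (h.dr t) (h.r0 t)
    choose e he he' using hu
    have key := image_norm_le_of_norm_deriv_right_le_deriv_boundary'
      (f := fun t => r t / ‖r t‖ - r x / ‖r x‖) (f' := e) (a := x) (b := y)
      (B := fun t => Ψ t - Ψ x) (B' := d)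
      (fun t _ => ((he t).sub_const _).continuousAt.continuousWithinAt)
      (fun t _ => ((he t).sub_const _).hasDerivWithinAt)
      (by simp)
      (fun t ht => ((hd t (hsub ht)).sub_const _).continuousAt.continuousWithinAt)
      (fun t ht => ((hd t (hsub (Ico_subset_Icc_self ht))).sub_const _).hasDerivWithinAt)
      (fun t ht => by
        rw [he' t]
        exact hd' t (hsub (Ico_subset_Icc_self ht)))
    exact key (right_mem_Icc.2 hxy)

end Pool.Agent.J4H19.TB
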