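import Mathlib
import Pool.Agent.J4H12.TB.Stm
import Pool.Agent.J4H19.TB.Exu

/-! Project TB (helper12), part DUR (helper19). -/

set_option autoImplicit false

open Filter Topology Set

noncomputable section

namespace Pool.Agent.J4H19.TB

open Pool.Agent.J4H12.TB

lemma mono_of_hasDerivAt {f f' : ℝ → ℝ} {a b : ℝ} (h : ∀ x ∈ Icc a b, HasDerivAt f (f' x) x)
    (h0 : ∀ x ∈ Icc a b, 0 ≤ f' x) : MonotoneOn f (Icc a b) := by
  refine monotoneOn_of_deriv_nonneg (convex_Icc a b)
    (fun x hx => (h x hx).continuousAt.continuousWithinAt)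
    (fun x hx => (h x (interior_subset hx)).differentiableAt.differentiableWithinAt)
    (fun x hx => ?_)
  rw [(h x (interior_subset hx)).deriv]
  exact h0 x (interior_subset hx)

lemma dur_core {M : ℝ} (hM : 0 < M) {R z zd : ℝ → ℝ} {a b : ℝ} (hab : a ≤ b)
    (hR0 : ∀ x ∈ Icc a b, 0 < R x)
    (hR : ∀ x ∈ Icc a b, HasDerivAt (fun t => R t ^ 2) (2 * z x) x)
    (hz : ∀ x ∈ Icc a b, HasDerivAt z (zd x) x)
    (hzd : ∀ x ∈ Icc a b, M / (4 * R x) ≤ zd x) (h0 : 0 ≤ z a) :
    b - a ≤ 2 / √M * (R b * √(R b)) := by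
  have ha : a ∈ Icc a b := left_mem_Icc.2 hab
  have hb : b ∈ Icc a b := right_mem_Icc.2 hab
  have hzm : MonotoneOn z (Icc a b) := mono_of_hasDerivAt hz fun x hx =>
    le_trans (by have := hR0 x hx; positivity) (hzd x hx)
  have hz0 : ∀ x ∈ Icc a b, 0 ≤ z x := fun x hx => h0.trans (hzm ha hx hx.1)
  have hRm : MonotoneOn (fun t => R t ^ 2) (Icc a b) := mono_of_hasDerivAt hR fun x hx => by
    have := hz0 x hx; positivity
  have hRb : ∀ x ∈ Icc a b, R x ≤ R b := fun x hx =>
    (sq_le_sq₀ (hR0 x hx).le (hR0 b hb).le).1 (hRm hx hb hx.2)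
  have hρ := hR0 b hb
  set k : ℝ := M / (4 * R b) with hk
  have hkp : 0 < k := by positivity
  have hz1 : MonotoneOn (fun t => z t - k * (t - a)) (Icc a b) := by
    refine mono_of_hasDerivAt (f' := fun x => zd x - k * 1) (fun x hx =>
      (hz x hx).sub (((hasDerivAt_id x).sub_const a).const_mul k)) fun x hx => ?_
    have h1 : k ≤ M / (4 * R x) := by
      rw [hk]
      have := hR0 x hx
      have := hRb x hx
      gcongr
    have := hzd x hx
    linarith
  have hz2 : ∀ x ∈ Icc a b, k * (x - a) ≤ z x := by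
    intro x hx
    have := hz1 ha hx hx.1
    simp only at this
    linarith
  have hR1 : MonotoneOn (fun t => R t ^ 2 - k * (t - a) ^ 2) (Icc a b) := by
    refine mono_of_hasDerivAt (f' := fun x => 2 * z x - k * (2 * (x - a))) (fun x hx => ?_)
      fun x hx => ?_
    · have h1 : HasDerivAt (fun t => (t - a) ^ 2) (2 * (x - a)) x := by
        have := ((hasDerivAt_id x).sub_const a).pow 2
        refine this.congr_deriv ?_
        simp
      exact (hR x hx).sub (h1.const_mul k)
    · have := hz2 x hx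
      linarith
  have h3 := hR1 ha hb hab
  simp only [sub_self] at h3
  have h4 : k * (b - a) ^ 2 ≤ R b ^ 2 := by
    have := sq_nonneg (R a)
    nlinarith
  have h5 : (b - a) ^ 2 ≤ (2 / √M * (R b * √(R b))) ^ 2 := by
    rw [mul_pow, mul_pow, div_pow, Real.sq_sqrt hM.le, Real.sq_sqrt hρ.le]
    rw [hk, div_mul_eq_mul_div, div_le_iff₀ (by positivity)] at h4
    rw [div_mul_eq_mul_div, le_div_iff₀ hM]
    nlinarith
  exact (sq_le_sq₀ (by linarith) (by positivity)).1 h5

/-- (DUR) duration of an excursion -/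
theorem t_DUR : S_DUR := by
  intro μ ν M C L hμ hν hM hC hL
  set κ : ℝ := min (1 / 2) (M / (8 * (L + C))) with hκdef
  have hLC : 0 < 8 * (L + C) := by positivity
  have hκ0 : 0 < κ := lt_min (by norm_num) (by positivity)
  have hκ1 : κ ≤ 1 / 2 := min_le_left _ _
  have hκ2 : 8 * (L + C) * κ ≤ M := by
    have : κ ≤ M / (8 * (L + C)) := min_le_right _ _
    rw [le_div_iff₀ hLC] at this
    linarith
  have hsM : 0 < √M := Real.sqrt_pos.2 hM
  refine ⟨κ, 2 / √M, hκ0, by positivity, ?_⟩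
  intro E r w X Y F G P h a b hab hcl
  have hr : ∀ x, 0 < ‖r x‖ := fun x => norm_pos_iff.2 (h.r0 x)
  have hR : ∀ x, HasDerivAt (fun t => ‖r t‖ ^ 2) (2 * dt (r x) (w x)) x := by
    intro x
    have h1 := hasDerivAt_dt (h.dr x) (h.dr x)
    have h2 : (fun t => dt (r t) (r t)) = fun t => ‖r t‖ ^ 2 := by
      funext t; exact dt_self _
    rw [h2] at h1
    refine h1.congr_deriv ?_
    unfold dt; ring
  have hz := hasDerivAt_z h
  have hzd : ∀ x ∈ Icc a b, M / (4 * ‖r x‖) ≤ zd r w F M x := fun x hx =>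
    (pointwise h hL hκ0 hκ1 hκ2 (hcl x hx).1 (hcl x hx).2).2.2.2
  -- forward version
  have fwd : ∀ s ∈ Icc a b, 0 ≤ dt (r s) (w s) →
      b - s ≤ 2 / √M * (‖r b‖ * √‖r b‖) := by
    intro s hs h0
    exact dur_core hM (R := fun t => ‖r t‖) (z := fun t => dt (r t) (w t))
      (zd := zd r w F M) hs.2 (fun x _ => hr x) (fun x _ => hR x) (fun x _ => hz x)
      (fun x hx => hzd x ⟨hs.1.trans hx.1, hx.2⟩) h0
  -- backward version
  have bwd : ∀ s ∈ Icc a b, dt (r s) (w s) ≤ 0 →
      s - a ≤ 2 / √M * (‖r a‖ * √‖r a‖) := by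
    intro s hs h0
    have := dur_core hM (R := fun t => ‖r (-t)‖) (z := fun t => -dt (r (-t)) (w (-t)))
      (zd := fun t => zd r w F M (-t)) (a := -s) (b := -a) (by linarith [hs.1]) (fun x _ => hr _)
      (fun x _ => ?_) (fun x _ => ?_) (fun x hx => hzd _ ⟨by linarith [hx.2], by linarith [hx.1, hs.2]⟩)
      (by simpa using h0)
    · simp only [neg_neg] at this
      linarith
    · have h1 := (hR (-x)).scomp x (hasDerivAt_neg x)
      refine h1.congr_deriv ?_
      simp
    · have h1 := ((hz (-x)).scomp x (hasDerivAt_neg x)).neg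
      refine h1.congr_deriv ?_
      simp
  have pa : 0 ≤ 2 / √M * (‖r a‖ * √‖r a‖) := by positivity
  have pb : 0 ≤ 2 / √M * (‖r b‖ * √‖r b‖) := by positivity
  rw [mul_add]
  by_cases ha : 0 ≤ dt (r a) (w a)
  · have := fwd a (left_mem_Icc.2 hab) ha
    linarith
  · by_cases hb : dt (r b) (w b) ≤ 0
    · have := bwd b (right_mem_Icc.2 hab) hb
      linarith
    · push Not at ha hb
      have hcont : ContinuousOn (fun t => dt (r t) (w t)) (Icc a b) :=
        fun x _ => (hz x).continuousAt.continuousWithinAt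
      obtain ⟨s, hs, hs0⟩ := intermediate_value_Icc hab hcont ⟨ha.le, hb.le⟩
      simp only at hs0
      have h1 := fwd s hs hs0.ge
      have h2 := bwd s hs hs0.le
      linarith

end Pool.Agent.J4H19.TB
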